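import Pool.Agent.U41.OD.Stm2
import Pool.Agent.U41.OD.GM
import Pool.Agent.TH214.RM.Exq

/-! Assembly 1: models of hypersurfaces with double points in the fibres; generic pencils. -/

set_option autoImplicit false
set_option linter.unusedSectionVars false
set_option linter.unusedVariables false

open AlgebraicGeometry CategoryTheory CategoryTheory.Limits MvPolynomial NumberField
open scoped Pointwise

namespace Pool.Agent.U41.OD

open Pool.Agent.H918R2.Quad Pool.Agent.W418 Pool.Agent.TH214.RM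

theorem model_ZN (hGM : S_GM) {K : Type} [Field K] [NumberField K] {n : ℕ} (hn : 1 ≤ n)
    (G : MvPolynomial (Fin (n + 2)) K) (d : ℕ) (hd : 2 ≤ d) (hGd : G.IsHomogeneous d)
    (hsm : Smooth G) (hloc : LocNode (𝓞 K) G) {A : Type} [CommRing A] [Algebra K A]
    (π : MvPolynomial (Fin (n + 2)) K →ₐ[K] A) (hπ : Function.Surjective π)
    (hker : RingHom.ker π = Ideal.span {G})
    (𝒜 : ℕ → Submodule K A) [GradedAlgebra 𝒜]
    (h𝒜 : ∀ d, 𝒜 d = (homogeneousSubmodule (Fin (n + 2)) K d).map π.toLinearMap)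
    (Y : Scheme.{0}) (hY : Nonempty (Y ≅ Proj 𝒜)) : HasRegularModel Y := by
  have hirr := irreducible_of_smooth hn G d (by omega) hGd hsm
  obtain ⟨F, _, _, x, b, hx0, hrel, hgen, htb⟩ := exists_ff G hirr d hGd
    (not_dvd_X G hirr.ne_zero d hd hGd)
  let _ : Algebra (𝓞 K) F := ((algebraMap K F).comp (algebraMap (𝓞 K) K)).toAlgebra
  have hst : IsScalarTower (𝓞 K) K F := IsScalarTower.of_algebraMap_eq fun _ => rfl
  have hM : GoodModule (𝓞 K) x :=
    hGM (K := K) G hirr d hd hGd hsm hloc x hx0 hrel hgen b htb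
  obtain ⟨ε, hε, hεgen, hε1⟩ := exists_eps x hx0 hgen _ htb G hirr.prime d hGd hrel π hπ hker 𝒜 h𝒜
  exact hasRegularModel_of_goodModule (O := 𝓞 K) 𝒜 ε hε hεgen x hε1 hM Y hY

theorem model_ON (hGM : S_GM) {K : Type} [Field K] [NumberField K] {n : ℕ} (hn : 1 ≤ n)
    (G : MvPolynomial (Fin (n + 2)) K) (d : ℕ) (hd : 2 ≤ d) (hGd : G.IsHomogeneous d)
    (hsm : Smooth G) (hloc : LocNode (𝓞 K) G) {A : Type} [CommRing A] [Algebra K A]
    (π : MvPolynomial (Fin (n + 2)) K →ₐ[K] A) (hπ : Function.Surjective π)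
    (hker : RingHom.ker π = Ideal.span {G})
    (𝒜 : ℕ → Submodule K A) [GradedAlgebra 𝒜]
    (h𝒜 : ∀ d, 𝒜 d = (homogeneousSubmodule (Fin (n + 2)) K d).map π.toLinearMap)
    {Y : Scheme.{0}} (f : Y ⟶ Spec (CommRingCat.of K)) (i : Y ≅ Proj 𝒜)
    (hi : i.hom ≫ GO.projStr 𝒜 = f) : GO.HasModel (𝓞 K) K f := by
  have hirr := irreducible_of_smooth hn G d (by omega) hGd hsm
  obtain ⟨F, _, _, x, b, hx0, hrel, hgen, htb⟩ := exists_ff G hirr d hGd
    (not_dvd_X G hirr.ne_zero d hd hGd)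
  let _ : Algebra (𝓞 K) F := ((algebraMap K F).comp (algebraMap (𝓞 K) K)).toAlgebra
  have hst : IsScalarTower (𝓞 K) K F := IsScalarTower.of_algebraMap_eq fun _ => rfl
  have hM : GoodModule (𝓞 K) x :=
    hGM (K := K) G hirr d hd hGd hsm hloc x hx0 hrel hgen b htb
  obtain ⟨ε, hε, hεgen, hε1⟩ := exists_eps x hx0 hgen _ htb G hirr.prime d hGd hrel π hπ hker 𝒜 h𝒜
  exact hasModel_of_goodModule (O := 𝓞 K) 𝒜 ε hε hεgen x hε1 hM f i hi

end Pool.Agent.U41.OD
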