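import Pool.Agent.U41.OD.Stm2

/-! Assembly 2: the local conditions for the members of a pencil. -/

set_option autoImplicit false
set_option linter.unusedSectionVars false
set_option linter.unusedVariables false

open MvPolynomial
open scoped Pointwise

namespace Pool.Agent.U41.OD

open Pool.Agent.H918R2.Quad Pool.Agent.TH214.RM

/-- The local condition at one prime. -/
def LocAt {O K : Type} [CommRing O] [Field K] [Algebra O K] {n : ℕ} (𝔭 : Ideal O)
    (G : MvPolynomial (Fin (n + 2)) K) : Prop :=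
  ∃ (H : MvPolynomial (Fin (n + 2)) O) (l : K) (T T' : Matrix (Fin (n + 2)) (Fin (n + 2)) K),
      l ≠ 0 ∧ T * T' = 1 ∧
      map (algebraMap O K) H = C l * aeval (fun i => ∑ j, C (T i j) * X j) G ∧
      (Crit 𝔭 H ∨ Node 𝔭 H)

theorem locNode_iff (O : Type) {K : Type} [CommRing O] [Field K] [Algebra O K] {n : ℕ}
    (G : MvPolynomial (Fin (n + 2)) K) :
    LocNode O G ↔ ∀ 𝔭 : Ideal O, 𝔭.IsPrime → 𝔭 ≠ ⊥ → LocAt 𝔭 G := Iff.rfl

/-- The member `G + c x_0 ^ d` of the pencil. -/
noncomputable def member {R : Type} [CommRing R] {n : ℕ} (d : ℕ) (G : MvPolynomial (Fin (n + 2)) R)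
    (c : R) : MvPolynomial (Fin (n + 2)) R := G + C c * X 0 ^ d

theorem map_member {R S : Type} [CommRing R] [CommRing S] (φ : R →+* S) {n : ℕ} (d : ℕ)
    (G : MvPolynomial (Fin (n + 2)) R) (c : R) :
    map φ (member d G c) = member d (map φ G) (φ c) := by
  simp [member]

theorem member_hom {R : Type} [CommRing R] {n : ℕ} {d : ℕ} {G : MvPolynomial (Fin (n + 2)) R}
    (hG : G.IsHomogeneous d) (c : R) : (member d G c).IsHomogeneous d := by
  refine hG.add ?_
  have h1 := (isHomogeneous_C (Fin (n + 2)) c).mul ((isHomogeneous_X R (0 : Fin (n + 2))).pow d)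
  rwa [zero_add, one_mul] at h1

/-- The matrix of the translation. -/
def tmat {K : Type} [Field K] {n : ℕ} (a : {j : Fin (n + 2) // j ≠ 0} → K) :
    Matrix (Fin (n + 2)) (Fin (n + 2)) K :=
  Matrix.of fun i j => if h : i ≠ 0 then (if j = 0 then a ⟨i, h⟩ else 0) else 0

theorem tmat_mul {K : Type} [Field K] {n : ℕ} (a b : {j : Fin (n + 2) // j ≠ 0} → K) :
    tmat a * tmat b = 0 := by
  ext i k
  rw [Matrix.mul_apply, Matrix.zero_apply]
  refine Finset.sum_eq_zero fun j _ => ?_
  by_cases hj : j = 0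
  · subst hj
    simp [tmat]
  · by_cases hi : i ≠ 0
    · simp [tmat, hi, hj]
    · simp [tmat, hi]

theorem tmat_neg {K : Type} [Field K] {n : ℕ} (a : {j : Fin (n + 2) // j ≠ 0} → K) :
    tmat (fun i => - a i) = - tmat a := by
  ext i j
  by_cases hi : i ≠ 0
  · by_cases hj : j = 0 <;> simp [tmat, hi, hj]
  · have hi' : i = 0 := not_not.1 hi
    subst hi'
    simp [tmat]

theorem tmat_inv {K : Type} [Field K] {n : ℕ} (a : {j : Fin (n + 2) // j ≠ 0} → K) :
    (1 + tmat a) * (1 + tmat fun i => - a i) = 1 := by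
  rw [add_mul, mul_add, mul_add, one_mul, one_mul, mul_one, tmat_mul, tmat_neg]
  simp

theorem map_trans {O K : Type} [CommRing O] [Field K] [Algebra O K] {n : ℕ}
    (a : {j : Fin (n + 2) // j ≠ 0} → O) (P : MvPolynomial (Fin (n + 2)) O) :
    map (algebraMap O K) (trans a P) =
      aeval (fun i => ∑ j, C ((1 + tmat fun i => algebraMap O K (a i)) i j) * X j)
        (map (algebraMap O K) P) := by
  have key : ∀ i : Fin (n + 2), ∑ j, C ((1 + tmat fun i => algebraMap O K (a i)) i j) *
      (X j : MvPolynomial (Fin (n + 2)) K) =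
      map (algebraMap O K) (if h : i ≠ 0 then X i + C (a ⟨i, h⟩) * X 0 else X 0) := by
    intro i
    have h1 : ∀ j, C ((1 + tmat fun i => algebraMap O K (a i)) i j) *
        (X j : MvPolynomial (Fin (n + 2)) K) = (if i = j then X j else 0) +
        (if j = 0 then C ((tmat fun i => algebraMap O K (a i)) i 0) * X 0 else 0) := by
      intro j
      rw [Matrix.add_apply, Matrix.one_apply, C_add, add_mul]
      congr 1
      · split_ifs <;> simp
      · by_cases hj : j = 0
        · rw [if_pos hj, hj]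
        · rw [if_neg hj]
          have : (tmat fun i => algebraMap O K (a i)) i j = 0 := by
            by_cases hi : i ≠ 0 <;> simp [tmat, hi, hj]
          rw [this, C_0, zero_mul]
    rw [Finset.sum_congr rfl fun j _ => h1 j, Finset.sum_add_distrib, Finset.sum_ite_eq,
      if_pos (Finset.mem_univ _), Finset.sum_ite_eq', if_pos (Finset.mem_univ _)]
    by_cases hi : i ≠ 0
    · rw [dif_pos hi, map_add, map_mul, map_X, map_X, map_C]
      simp [tmat, hi]
    · rw [dif_neg hi, map_X]
      have hi' : i = 0 := not_not.1 hi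
      subst hi'
      simp [tmat]
  unfold trans
  induction P using MvPolynomial.induction_on with
  | C r => simp
  | add p q hp hq => rw [map_add, map_add, hp, hq, map_add, map_add]
  | mul_X p i hp => rw [map_mul, map_mul, hp, map_mul, map_mul, aeval_X, map_X, aeval_X, key]

theorem locAt_of_crit {O K : Type} [CommRing O] [Field K] [Algebra O K] {n : ℕ} (𝔭 : Ideal O)
    (H : MvPolynomial (Fin (n + 2)) O) (h : Crit 𝔭 H) : LocAt 𝔭 (map (algebraMap O K) H) := by
  refine ⟨H, 1, 1, 1, one_ne_zero, mul_one 1, ?_, Or.inl h⟩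
  have h1 : (fun i => ∑ j, C ((1 : Matrix (Fin (n + 2)) (Fin (n + 2)) K) i j) *
      (X j : MvPolynomial (Fin (n + 2)) K)) = X := by
    funext i
    simp only [Matrix.one_apply]
    rw [Finset.sum_eq_single i]
    · simp
    · intro j _ hj
      rw [if_neg (Ne.symm hj), C_0, zero_mul]
    · intro h
      exact absurd (Finset.mem_univ _) h
  rw [h1, aeval_X_left_apply, C_1, one_mul]

theorem locAt_of_node {O K : Type} [CommRing O] [Field K] [Algebra O K] {n : ℕ} (𝔭 : Ideal O)
    (H : MvPolynomial (Fin (n + 2)) O) (a : {j : Fin (n + 2) // j ≠ 0} → O)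
    (h : Node 𝔭 (trans a H)) : LocAt 𝔭 (map (algebraMap O K) H) := by
  refine ⟨trans a H, 1, 1 + tmat fun i => algebraMap O K (a i),
    1 + tmat fun i => - algebraMap O K (a i), one_ne_zero, tmat_inv _, ?_, Or.inr h⟩
  rw [map_trans, C_1, one_mul]

/-- The local conditions are open in a pencil. -/
theorem locAt_open (hPS : S_PS) {O K : Type} [CommRing O] [IsDedekindDomain O] [Field K]
    [Algebra O K] [IsFractionRing O K] {n d : ℕ} (G : MvPolynomial (Fin (n + 2)) O) (c₀ N : O)
    (𝔭 : Ideal O) (hp : 𝔭.IsPrime) (h0 : 𝔭 ≠ ⊥) (hN : N ∈ 𝔭) (hN0 : N ≠ 0)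
    (h : LocAt 𝔭 (map (algebraMap O K) (member d G c₀))) :
    ∃ N' : O, N' ≠ 0 ∧ ∀ c, N' ∣ c - c₀ → LocAt 𝔭 (map (algebraMap O K) (member d G c)) := by
  obtain ⟨H, l, T, T', hl, hTT, hH, hcn⟩ := h
  obtain ⟨r, hr⟩ := hPS H 𝔭 hp h0 hcn
  obtain ⟨s, hs, P₀, hP₀⟩ := clear_poly (R := K) (nonZeroDivisors O)
    (C l * (∑ j, C (T 0 j) * X j) ^ d : MvPolynomial (Fin (n + 2)) K)
  refine ⟨s * N ^ r, mul_ne_zero (nonZeroDivisors.ne_zero hs) (pow_ne_zero _ hN0), ?_⟩
  rintro c ⟨e, he⟩
  refine ⟨H + C (N ^ r * e) * P₀, l, T, T', hl, hTT, ?_, hr _ ?_⟩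
  · have hc : c = c₀ + s * N ^ r * e := by rw [← he]; ring
    have h1 : map (algebraMap O K) (member d G c) =
        map (algebraMap O K) (member d G c₀) +
          C (algebraMap O K (s * N ^ r * e)) * X 0 ^ d := by
      rw [map_member, map_member, hc]
      simp only [member, map_add]
      ring
    rw [h1, map_add, map_mul, map_C, hP₀, hH]
    simp only [map_add, map_mul, map_pow, aeval_X, aeval_C, algebraMap_eq]
    ring
  · intro m
    rw [add_sub_cancel_left, coeff_C_mul]
    refine Ideal.mul_mem_right _ _ (Ideal.mul_mem_right _ _ (Ideal.pow_mem_pow hN r))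

end Pool.Agent.U41.OD
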