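import Pool.Agent.U41.OD.Asm2

/-! Assembly 3: generic pencils. -/

set_option autoImplicit false
set_option linter.unusedSectionVars false
set_option linter.unusedVariables false

open MvPolynomial NumberField
open scoped Pointwise

namespace Pool.Agent.U41.OD

open Pool.Agent.H918R2.Quad Pool.Agent.TH214.RM

theorem dehP {K : Type} [CommRing K] {n : ℕ} (s : Fin (n + 2)) (P Q : MvPolynomial (Fin (n + 2)) K) :
    deh s (P + Q) = deh s P + deh s Q := map_add _ _ _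

theorem one_mem_of_eval {K σ : Type} [Field K] (g : MvPolynomial σ K) (S : Set (MvPolynomial σ K))
    (m : Polynomial K) (hm : Polynomial.aeval g m ∈ Ideal.span S) (c : K)
    (hc : m.eval (-c) ≠ 0) : (1 : MvPolynomial σ K) ∈ Ideal.span (insert (g + C c) S) := by
  have h1 : g - C (-c) ∣ (m.map (C : K →+* MvPolynomial σ K)).eval g -
      (m.map (C : K →+* MvPolynomial σ K)).eval (C (-c)) := Polynomial.sub_dvd_eval_sub _ _ _
  have h2 : (m.map (C : K →+* MvPolynomial σ K)).eval (C (-c)) = C (m.eval (-c)) := by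
    rw [Polynomial.eval_map, Polynomial.eval₂_at_apply]
  have h3 : (m.map (C : K →+* MvPolynomial σ K)).eval g = Polynomial.aeval g m := by
    rw [Polynomial.eval_map, Polynomial.aeval_def]
    rfl
  rw [h2, h3] at h1
  have h4 : g - C (-c) = g + C c := by rw [C_neg, sub_neg_eq_add]
  rw [h4] at h1
  obtain ⟨q, hq⟩ := h1
  have h5 : C (m.eval (-c)) ∈ Ideal.span (insert (g + C c) S) := by
    have h6 : C (m.eval (-c)) = Polynomial.aeval g m - (g + C c) * q := by rw [← hq]; ring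
    rw [h6]
    refine Ideal.sub_mem _ (Ideal.span_mono (Set.subset_insert _ _) hm) ?_
    exact Ideal.mul_mem_right _ _ (Ideal.subset_span (Set.mem_insert _ _))
  have h7 : (1 : MvPolynomial σ K) = C (m.eval (-c))⁻¹ * C (m.eval (-c)) := by
    rw [← C_mul, inv_mul_cancel₀ hc, C_1]
  rw [h7]
  exact Ideal.mul_mem_left _ _ h5

theorem image_gens {O K : Type} [CommRing O] [Field K] [Algebra O K] {n : ℕ}
    (G : MvPolynomial (Fin (n + 2)) O) (c : O) :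
    insert (deh 0 (map (algebraMap O K) G) + C (algebraMap O K c))
      (Set.range fun j => pderiv j (deh 0 (map (algebraMap O K) G))) =
    map (algebraMap O K) '' (insert (deh 0 G + C c) (Set.range fun j => pderiv j (deh 0 G))) := by
  rw [Set.image_insert_eq, map_add, map_C, map_deh, ← Set.range_comp]
  congr 2
  funext j
  change _ = map (algebraMap O K) (pderiv j (deh 0 G))
  rw [← pderiv_map, map_deh]

theorem exists_e {O K : Type} [CommRing O] [IsDomain O] [Field K] [Algebra O K]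
    [IsFractionRing O K] {n : ℕ} (G : MvPolynomial (Fin (n + 2)) O) (c : O)
    (h : (1 : MvPolynomial {j : Fin (n + 2) // j ≠ 0} K) ∈
      Ideal.span (insert (deh 0 (map (algebraMap O K) G) + C (algebraMap O K c))
        (Set.range fun j => pderiv j (deh 0 (map (algebraMap O K) G))))) :
    ∃ e : O, e ≠ 0 ∧ C e ∈ Ideal.span (insert (deh 0 G + C c)
      (Set.range fun j => pderiv j (deh 0 G))) := by
  rw [image_gens] at h
  obtain ⟨e, he, y, hy, hye⟩ := clear_span (R := K) (nonZeroDivisors O) _ _ h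
  refine ⟨e, nonZeroDivisors.ne_zero he, ?_⟩
  have h1 : y = C e := by
    apply map_injective _ (IsFractionRing.injective O K)
    rw [hye, map_C, mul_one]
  rwa [← h1]

theorem pencil (hPEN : S_PEN) (hFI : S_FI) (hCL : S_CL) (hSM : S_SM) {K : Type} [Field K]
    [NumberField K] {n d : ℕ} (hd : 2 ≤ d) (G : MvPolynomial (Fin (n + 2)) (𝓞 K))
    (hG : G.IsHomogeneous d) (hgen : Generic (map (algebraMap (𝓞 K) K) G)) :
    ∃ N : 𝓞 K, N ≠ 0 ∧ ∃ Z : Set (𝓞 K), Z.Finite ∧ ∀ c, c ∉ Z →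
      Smooth (map (algebraMap (𝓞 K) K) (member d G c)) ∧
      ((∀ 𝔭 : Ideal (𝓞 K), 𝔭.IsPrime → 𝔭 ≠ ⊥ → N ∈ 𝔭 →
        LocAt 𝔭 (map (algebraMap (𝓞 K) K) (member d G c))) →
        LocNode (𝓞 K) (map (algebraMap (𝓞 K) K) (member d G c))) := by
  classical
  obtain ⟨N, hN, hcert⟩ := hCL G hgen
  obtain ⟨m, hm0, hm⟩ := hFI _ hgen.nondeg
  refine ⟨2 * N, mul_ne_zero two_ne_zero hN,
    {c | m.eval (-(algebraMap (𝓞 K) K c)) = 0}, ?_, ?_⟩
  · have h1 : ({c : 𝓞 K | m.eval (-(algebraMap (𝓞 K) K c)) = 0}) ⊆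
        (fun c => -(algebraMap (𝓞 K) K c)) ⁻¹' (m.roots.toFinset : Set K) := by
      intro c hc
      rw [Set.mem_preimage, Finset.mem_coe, Multiset.mem_toFinset, Polynomial.mem_roots hm0]
      exact hc
    refine Set.Finite.subset (Set.Finite.preimage ?_ (Finset.finite_toSet _)) h1
    intro a _ b _ hab
    exact FaithfulSMul.algebraMap_injective (𝓞 K) K (neg_injective hab)
  · intro c hc
    have hone := one_mem_of_eval _ _ m hm (algebraMap (𝓞 K) K c) hc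
    obtain ⟨e, he, heC⟩ := exists_e G c hone
    refine ⟨?_, fun hloc 𝔭 hp h0 => ?_⟩
    · rw [map_member]
      exact hSM _ _ (by omega) (hG.map _) hgen.sect hone
    · by_cases hN𝔭 : 2 * N ∈ 𝔭
      · exact hloc 𝔭 hp h0 hN𝔭
      · have h1 : N ∉ 𝔭 := fun h => hN𝔭 (𝔭.mul_mem_left _ h)
        have h2 : (2 : 𝓞 K) ∉ 𝔭 := fun h => hN𝔭 (𝔭.mul_mem_right _ h)
        have hfin : Finite (𝓞 K ⧸ 𝔭) := Ideal.finiteQuotientOfFreeOfNeBot 𝔭 h0
        rcases hPEN G N 𝔭 hp h0 hfin h1 h2 hd hG hcert c ⟨e, he, heC⟩ with h3 | ⟨a, h3⟩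
        · exact locAt_of_crit 𝔭 _ h3
        · exact locAt_of_node 𝔭 _ a h3

theorem pencil_open (hPEN : S_PEN) (hFI : S_FI) (hCL : S_CL) (hSM : S_SM) (hPS : S_PS) {K : Type}
    [Field K] [NumberField K] {n d : ℕ} (hd : 2 ≤ d) (G : MvPolynomial (Fin (n + 2)) (𝓞 K))
    (hG : G.IsHomogeneous d) (hgen : Generic (map (algebraMap (𝓞 K) K) G)) :
    ∃ N : 𝓞 K, N ≠ 0 ∧ ∃ Z : Set (𝓞 K), Z.Finite ∧ ∀ c₀ : 𝓞 K,
      (∀ 𝔭 : Ideal (𝓞 K), 𝔭.IsPrime → 𝔭 ≠ ⊥ → N ∈ 𝔭 →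
        LocAt 𝔭 (map (algebraMap (𝓞 K) K) (member d G c₀))) →
      ∃ N' : 𝓞 K, N' ≠ 0 ∧ ∀ c, c ∉ Z → N' ∣ c - c₀ →
        Smooth (map (algebraMap (𝓞 K) K) (member d G c)) ∧
        LocNode (𝓞 K) (map (algebraMap (𝓞 K) K) (member d G c)) := by
  classical
  obtain ⟨N, hN, Z, hZ, h⟩ := pencil hPEN hFI hCL hSM hd G hG hgen
  refine ⟨N, hN, Z, hZ, fun c₀ hc₀ => ?_⟩
  have hspan : Ideal.span {N} ≠ ⊥ := by
    rw [Ne, Ideal.span_singleton_eq_bot]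
    exact hN
  let S : Finset (Ideal (𝓞 K)) :=
    (UniqueFactorizationMonoid.normalizedFactors (Ideal.span {N})).toFinset
  have hS : ∀ 𝔭, 𝔭 ∈ S ↔ 𝔭.IsPrime ∧ N ∈ 𝔭 := by
    intro 𝔭
    rw [Multiset.mem_toFinset, Ideal.mem_normalizedFactors_iff hspan,
      Ideal.span_singleton_le_iff_mem]
  have hex : ∀ 𝔭 : Ideal (𝓞 K), ∃ N' : 𝓞 K, N' ≠ 0 ∧ (𝔭 ∈ S → 𝔭 ≠ ⊥ → ∀ c, N' ∣ c - c₀ →
      LocAt 𝔭 (map (algebraMap (𝓞 K) K) (member d G c))) := by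
    intro 𝔭
    by_cases h𝔭 : 𝔭 ∈ S ∧ 𝔭 ≠ ⊥
    · obtain ⟨h1, h0⟩ := h𝔭
      obtain ⟨hp, hN𝔭⟩ := (hS 𝔭).1 h1
      obtain ⟨N', h2, h3⟩ := locAt_open hPS (K := K) G c₀ N 𝔭 hp h0 hN𝔭 hN (hc₀ 𝔭 hp h0 hN𝔭)
      exact ⟨N', h2, fun _ _ => h3⟩
    · exact ⟨1, one_ne_zero, fun h1 h2 => absurd ⟨h1, h2⟩ h𝔭⟩
  choose N' hN' hloc using hex
  refine ⟨∏ 𝔭 ∈ S, N' 𝔭, Finset.prod_ne_zero_iff.2 fun 𝔭 _ => hN' 𝔭, fun c hcZ hc => ?_⟩
  refine ⟨(h c hcZ).1, (h c hcZ).2 fun 𝔭 hp h0 hN𝔭 => ?_⟩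
  have h1 : 𝔭 ∈ S := (hS 𝔭).2 ⟨hp, hN𝔭⟩
  exact hloc 𝔭 h1 h0 c ((Finset.dvd_prod_of_mem N' h1).trans hc)

end Pool.Agent.U41.OD
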