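import Pool.Agent.U41.OD.Asm3

/-! Assembly 4: generic pencils, both statements with the same constants. -/

set_option autoImplicit false
set_option linter.unusedSectionVars false
set_option linter.unusedVariables false

open MvPolynomial NumberField
open scoped Pointwise

namespace Pool.Agent.U41.OD

open Pool.Agent.H918R2.Quad Pool.Agent.TH214.RM

theorem pencil_both (hPEN : S_PEN) (hFI : S_FI) (hCL : S_CL) (hSM : S_SM) (hPS : S_PS) {K : Type}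
    [Field K] [NumberField K] {n d : ℕ} (hd : 2 ≤ d) (G : MvPolynomial (Fin (n + 2)) (𝓞 K))
    (hG : G.IsHomogeneous d) (hgen : Generic (map (algebraMap (𝓞 K) K) G)) :
    ∃ N : 𝓞 K, N ≠ 0 ∧ ∃ Z : Set (𝓞 K), Z.Finite ∧ (∀ c, c ∉ Z →
      Smooth (map (algebraMap (𝓞 K) K) (member d G c)) ∧
      ((∀ 𝔭 : Ideal (𝓞 K), 𝔭.IsPrime → 𝔭 ≠ ⊥ → N ∈ 𝔭 →
        LocAt 𝔭 (map (algebraMap (𝓞 K) K) (member d G c))) →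
        LocNode (𝓞 K) (map (algebraMap (𝓞 K) K) (member d G c)))) ∧ ∀ c₀ : 𝓞 K,
      (∀ 𝔭 : Ideal (𝓞 K), 𝔭.IsPrime → 𝔭 ≠ ⊥ → N ∈ 𝔭 →
        LocAt 𝔭 (map (algebraMap (𝓞 K) K) (member d G c₀))) →
      ∃ N' : 𝓞 K, N' ≠ 0 ∧ ∀ c, c ∉ Z → N' ∣ c - c₀ →
        Smooth (map (algebraMap (𝓞 K) K) (member d G c)) ∧
        LocNode (𝓞 K) (map (algebraMap (𝓞 K) K) (member d G c)) := by
  classical
  obtain ⟨N, hN, Z, hZ, h⟩ := pencil hPEN hFI hCL hSM hd G hG hgen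
  refine ⟨N, hN, Z, hZ, h, fun c₀ hc₀ => ?_⟩
  have hspan : Ideal.span {N} ≠ ⊥ := by
    rw [Ne, Ideal.span_singleton_eq_bot]
    exact hN
  let S : Finset (Ideal (𝓞 K)) :=
    (UniqueFactorizationMonoid.normalizedFactors (Ideal.span {N})).toFinset
  have hS : ∀ 𝔭, 𝔭 ∈ S ↔ 𝔭.IsPrime ∧ N ∈ 𝔭 := by
    intro 𝔭
    rw [Multiset.mem_toFinset, Ideal.mem_normalizedFactors_iff hspan,
      Ideal.span_singleton_le_iff_mem]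
  have hex : ∀ 𝔭 : Ideal (𝓞 K), ∃ N' : 𝓞 K, N' ≠ 0 ∧ (𝔭 ∈ S → 𝔭 ≠ ⊥ → ∀ c, N' ∣ c - c₀ →
      LocAt 𝔭 (map (algebraMap (𝓞 K) K) (member d G c))) := by
    intro 𝔭
    by_cases h𝔭 : 𝔭 ∈ S ∧ 𝔭 ≠ ⊥
    · obtain ⟨h1, h0⟩ := h𝔭
      obtain ⟨hp, hN𝔭⟩ := (hS 𝔭).1 h1
      obtain ⟨N', h2, h3⟩ := locAt_open hPS (K := K) G c₀ N 𝔭 hp h0 hN𝔭 hN (hc₀ 𝔭 hp h0 hN𝔭)
      exact ⟨N', h2, fun _ _ => h3⟩
    · exact ⟨1, one_ne_zero, fun h1 h2 => absurd ⟨h1, h2⟩ h𝔭⟩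
  choose N' hN' hloc using hex
  refine ⟨∏ 𝔭 ∈ S, N' 𝔭, Finset.prod_ne_zero_iff.2 fun 𝔭 _ => hN' 𝔭, fun c hcZ hc => ?_⟩
  refine ⟨(h c hcZ).1, (h c hcZ).2 fun 𝔭 hp h0 hN𝔭 => ?_⟩
  have h1 : 𝔭 ∈ S := (hS 𝔭).2 ⟨hp, hN𝔭⟩
  exact hloc 𝔭 h1 h0 c ((Finset.dvd_prod_of_mem N' h1).trans hc)

end Pool.Agent.U41.OD
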