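import Pool.Agent.U234.RM.FF
import Pool.Agent.U41.OD.Asm1

/-! Assembly 5: the birational form. -/

set_option autoImplicit false
set_option linter.unusedSectionVars false
set_option linter.unusedVariables false

open AlgebraicGeometry CategoryTheory MvPolynomial NumberField
open scoped Pointwise

namespace Pool.Agent.U41.OD

open Pool.Agent.H918R2.Quad Pool.Agent.W418 Pool.Agent.TH214.RM Pool.Agent.U234.RM

theorem model_FN (hGM : S_GM) {K : Type} [Field K] [NumberField K] {n : ℕ} (hn : 1 ≤ n)
    (G : MvPolynomial (Fin (n + 2)) K) (d : ℕ) (hd : 2 ≤ d) (hGd : G.IsHomogeneous d)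
    (hsm : Smooth G) (hloc : LocNode (𝓞 K) G)
    {F : Type} [Field F] [Algebra K F] (x : Fin (n + 2) → F) (hx0 : x 0 = 1)
    (hrel : aeval x G = 0) (hgen : IntermediateField.adjoin K (Set.range x) = ⊤)
    (htr : Algebra.trdeg K F = n) : FieldModel F := by
  have hirr := irreducible_of_smooth hn G d (by omega) hGd hsm
  obtain ⟨b, htb⟩ := exists_basis htr
  let _ : Algebra (𝓞 K) F := ((algebraMap K F).comp (algebraMap (𝓞 K) K)).toAlgebra
  have hst : IsScalarTower (𝓞 K) K F := IsScalarTower.of_algebraMap_eq fun _ => rfl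
  have hOK : Function.Injective (algebraMap (𝓞 K) K) := IsFractionRing.injective (𝓞 K) K
  have hOF : Function.Injective (algebraMap (𝓞 K) F) := by
    rw [IsScalarTower.algebraMap_eq (𝓞 K) K F]
    exact (algebraMap K F).injective.comp hOK
  have hM : GoodModule (𝓞 K) x :=
    hGM (K := K) G hirr d hd hGd hsm hloc x hx0 hrel hgen b htb
  exact model_of_hasModule hOF (hasModule_of_goodModule (K := K) _ 0 hx0 hgen hM)

end Pool.Agent.U41.OD
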