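import Pool.Agent.U41.OD.Stm3
import Pool.Agent.TH214.RM.Base2

/-! Project OD: the explicit family, the member `c = 0`. -/

set_option autoImplicit false
set_option linter.unusedSectionVars false
set_option linter.unusedVariables false

open MvPolynomial NumberField

namespace Pool.Agent.U41.OD

open Pool.Agent.H918R2.Quad Pool.Agent.TH214.RM

theorem chainF_zero {R : Type} [CommRing R] (d : ℕ) (b : R) :
    chainF 0 d b = up d (C b * X 0 ^ d : MvPolynomial (Fin 1) R) := by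
  unfold chainF up
  rw [Fin.sum_univ_one, map_mul, rename_C, map_pow, rename_X]
  rfl

theorem chainF_succ {R : Type} [CommRing R] (n d : ℕ) (b : R) :
    chainF (n + 1) d b = up d (chainF n d b) := by
  unfold chainF up
  rw [Fin.sum_univ_succ, map_add, map_sum, map_mul, rename_C, map_pow, rename_X, Fin.succ_last]
  have h1 : ∀ i : Fin (n + 1), rename (Fin.succ : Fin (n + 2) → Fin (n + 3))
      (X i.castSucc ^ (d - 1) * X i.succ : MvPolynomial (Fin (n + 2)) R) =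
      X i.succ.castSucc ^ (d - 1) * X i.succ.succ := by
    intro i
    rw [map_mul, map_pow, rename_X, rename_X]
    rfl
  rw [Finset.sum_congr rfl fun i _ => h1 i]
  exact add_assoc _ _ _

theorem map_chainF {R S : Type} [CommRing R] [CommRing S] (φ : R →+* S) (n d : ℕ) (b : R) :
    map φ (chainF n d b) = chainF n d (φ b) := by
  unfold chainF
  simp

theorem chainF_hom {R : Type} [CommRing R] (n d : ℕ) (hd : 3 ≤ d) (b : R) :
    (chainF n d b).IsHomogeneous d := by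
  induction n with
  | zero =>
    rw [chainF_zero]
    exact isHomogeneous_up d (by omega) _ (isHomogeneous_zero d b)
  | succ n ih =>
    rw [chainF_succ]
    exact isHomogeneous_up d (by omega) _ ih

theorem crit_chainF {K : Type} [Field K] [NumberField K] (n d : ℕ) (hd : 3 ≤ d) (b : 𝓞 K)
    (hb : b ≠ 0) (hb2 : ∀ 𝔭 : Ideal (𝓞 K), 𝔭.IsPrime → 𝔭 ≠ ⊥ → b ∉ 𝔭 ^ 2 ∧
      ∀ p : ℕ, p.Prime → p ∣ d - 1 → (p : 𝓞 K) ∈ 𝔭 → ∀ c : 𝓞 K, b + c ^ p ∉ 𝔭 ^ 2)
    (𝔭 : Ideal (𝓞 K)) (hp : 𝔭.IsPrime) (h0 : 𝔭 ≠ ⊥) : Crit 𝔭 (chainF n d b) := by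
  obtain ⟨_, _, h⟩ := data_zero2 d hd b hb hb2
  obtain ⟨h1, h2, h3⟩ := h 𝔭 hp h0
  have key : ∀ n, ∃ F₀ : MvPolynomial (Fin (n + 1)) (𝓞 K), F₀.IsHomogeneous d ∧
      chainF n d b = up d F₀ ∧ Crit 𝔭 (up d F₀) := by
    intro n
    induction n with
    | zero =>
      exact ⟨C b * X 0 ^ d, isHomogeneous_zero d b, chainF_zero d b,
        crit_susp2 𝔭 d hd _ (isHomogeneous_zero d b) h2.crit h1.crit h3⟩
    | succ n ih =>
      obtain ⟨F₀, hF₀, h4, h5⟩ := ih
      refine ⟨chainF n d b, chainF_hom n d hd b, chainF_succ n d b, ?_⟩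
      rw [h4]
      exact crit_up 𝔭 d hd F₀ hF₀ h5
  obtain ⟨F₀, _, h4, h5⟩ := key n
  rw [h4]
  exact h5

end Pool.Agent.U41.OD
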