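import Pool.Agent.U884.OD.EX2
import Pool.Agent.U41.OD.TW

/-! Project OD, package EX1 (helper41), with lemmas of helper884. -/

set_option autoImplicit false

open MvPolynomial

namespace Pool.Agent.U41.OD

open Pool.Agent.H918R2.Quad Pool.Agent.TH214.RM

theorem ex1_core {L : Type} [Field L] [CharZero L] (n e : ℕ) (y y' : ℕ → L)
    (h0 : y 0 = 1) (h0' : y' 0 = 1) (h1 : y 1 = y' 1)
    (c1 : ∀ i < n, y i ^ (e + 2) + ((e : L) + 2) * y (i + 1) ^ (e + 1) * y (i + 2) = 0)
    (c1' : ∀ i < n, y' i ^ (e + 2) + ((e : L) + 2) * y' (i + 1) ^ (e + 1) * y' (i + 2) = 0) :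
    ∀ i ≤ n, y i = y' i ∧ y (i + 1) = y' (i + 1) := by
  have e2 : ((e : L) + 2) ≠ 0 := by
    have : ((e + 2 : ℕ) : L) ≠ 0 := Nat.cast_ne_zero.2 (by omega)
    simpa using this
  have yn : ∀ i ≤ n, y i ≠ 0 := by
    intro i
    induction i with
    | zero => intro _; rw [h0]; exact one_ne_zero
    | succ i ih =>
      intro hi h
      have h2 := ih (by omega)
      have h3 := c1 i (by omega)
      rw [h] at h3
      rw [zero_pow (by omega)] at h3
      simp only [mul_zero, zero_mul, add_zero] at h3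
      exact h2 (pow_eq_zero_iff (by omega) |>.1 h3)
  intro i
  induction i with
  | zero => exact fun _ => ⟨by rw [h0, h0'], h1⟩
  | succ i ih =>
    intro hi
    obtain ⟨h2, h3⟩ := ih (by omega)
    refine ⟨h3, ?_⟩
    have h4 := c1 i (by omega)
    have h5 := c1' i (by omega)
    rw [← h2, ← h3] at h5
    have h6 : (((e : L) + 2) * y (i + 1) ^ (e + 1)) * (y (i + 1 + 1) - y' (i + 1 + 1)) = 0 := by
      linear_combination h4 - h5
    exact sub_eq_zero.1 ((mul_eq_zero.1 h6).resolve_left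
      (mul_ne_zero e2 (pow_ne_zero _ (yn (i + 1) hi))))

/-- The critical value. -/
theorem ex1_value {L : Type} [Field L] (n e : ℕ) (b : L) (y : ℕ → L) (h0 : y 0 = 1)
    (hc : ∀ i : {j : Fin (n + 2) // j ≠ 0}, eval (fun j : Fin (n + 2) => y j)
      (pderiv (i : Fin (n + 2)) (chainF n (e + 3) b)) = 0) :
    ((e : L) + 3) * eval (fun j : Fin (n + 2) => y j) (chainF n (e + 3) b) =
      ((e : L) + 2) * y 1 := by
  have h1 := congrArg (eval (fun j : Fin (n + 2) => y j))
    (chainF_hom n (e + 3) (by omega) b).sum_X_mul_pderiv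
  rw [map_sum, map_nsmul] at h1
  have h2 : ∀ j : Fin (n + 2), j ≠ 0 → eval (fun j : Fin (n + 2) => y j)
      (X j * pderiv j (chainF n (e + 3) b)) = 0 := by
    intro j hj
    rw [map_mul, hc ⟨j, hj⟩, mul_zero]
  rw [Finset.sum_eq_single (0 : Fin (n + 2)) (fun j _ hj => h2 j hj)
    (fun h => absurd (Finset.mem_univ _) h), map_mul, eval_X] at h1
  have h3 := ex2_first' n e b (pderiv (0 : Fin (n + 2))) (fun k => if k = 0 then 1 else 0) (by
    intro j
    rw [pderiv_X, Pi.single_apply]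
    by_cases h : (j : ℕ) = 0
    · rw [if_pos h, if_pos (by ext; exact h)]; simp
    · rw [if_neg h, if_neg (by intro h'; apply h; rw [h']; rfl)]; simp) y
  rw [h3] at h1
  have h4 : ∑ i : Fin (n + 1), (((e : L) + 2) * (if (i : ℕ) = 0 then 1 else 0) *
      (y i ^ (e + 1) * y (i + 1)) + (if (i : ℕ) + 1 = 0 then 1 else 0) * y i ^ (e + 2)) =
      ((e : L) + 2) * y 1 := by
    rw [Finset.sum_eq_single (0 : Fin (n + 1))]
    · simp [h0]
    · intro i _ hi
      have h5 : (i : ℕ) ≠ 0 := fun h => hi (by ext; exact h)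
      simp [h5]
    · exact fun h => absurd (Finset.mem_univ _) h
  rw [h4] at h1
  simp only [Nat.add_eq_zero_iff, one_ne_zero, and_false, if_false, mul_zero, zero_mul, add_zero,
    Fin.val_zero, h0, one_mul, nsmul_eq_mul] at h1
  rw [h1]
  push_cast
  ring

theorem ex1_main {K L : Type} [Field K] [Field L] [CharZero L] (n e : ℕ) (b : K)
    (φ φ' : MvPolynomial {j : Fin (n + 2) // j ≠ 0} K →+* L) (hφ : φ.comp C = φ'.comp C)
    (hcrit : ∀ j, φ (pderiv j (deh 0 (chainF n (e + 3) b))) = 0)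
    (hcrit' : ∀ j, φ' (pderiv j (deh 0 (chainF n (e + 3) b))) = 0)
    (hval : φ (deh 0 (chainF n (e + 3) b)) = φ' (deh 0 (chainF n (e + 3) b)))
    (l : {j : Fin (n + 2) // j ≠ 0}) : φ (X l) = φ' (X l) := by
  set f : K →+* L := φ.comp C with hf
  have e3 : ((e : L) + 3) ≠ 0 := by
    have : ((e + 3 : ℕ) : L) ≠ 0 := Nat.cast_ne_zero.2 (by omega)
    simpa using this
  have e2 : ((e : L) + 2) ≠ 0 := by
    have : ((e + 2 : ℕ) : L) ≠ 0 := Nat.cast_ne_zero.2 (by omega)
    simpa using this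
  have key : ∀ ψ : MvPolynomial {j : Fin (n + 2) // j ≠ 0} K →+* L, ψ.comp C = f →
      (∀ j, ψ (pderiv j (deh 0 (chainF n (e + 3) b))) = 0) →
      ∃ y : ℕ → L, y 0 = 1 ∧ (∀ j : {j : Fin (n + 2) // j ≠ 0}, y (j : Fin (n + 2)) = ψ (X j)) ∧
      (∀ i < n, y i ^ (e + 2) + ((e : L) + 2) * y (i + 1) ^ (e + 1) * y (i + 2) = 0) ∧
      ((e : L) + 3) * ψ (deh 0 (chainF n (e + 3) b)) = ((e : L) + 2) * y 1 := by
    intro ψ hψ hψc
    set y : ℕ → L := fun k => if h : k < n + 2 then ψ (tau 0 ⟨k, h⟩) else 0 with hy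
    have hyF : (fun j : Fin (n + 2) => ψ (tau 0 j)) = fun j : Fin (n + 2) => y j := by
      funext j
      simp [hy]
    have hy0 : y 0 = 1 := by
      simp [hy, tau]
    have hev : ∀ P : MvPolynomial (Fin (n + 2)) K, ψ (deh 0 P) =
        eval (fun j : Fin (n + 2) => y j) (map f P) := by
      intro P
      rw [ex2_phi ψ P, hyF, hψ]
    have hc : ∀ i : {j : Fin (n + 2) // j ≠ 0}, eval (fun j : Fin (n + 2) => y j)
        (pderiv (i : Fin (n + 2)) (chainF n (e + 3) (f b))) = 0 := by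
      intro i
      have h1 := hψc i
      rw [pderiv_deh, hev, ← pderiv_map, ex2_map] at h1
      exact h1
    have hne : ∀ i, (hi : i ≤ n) → (⟨i + 1, by omega⟩ : Fin (n + 2)) ≠ 0 := by
      intro i hi h
      have := congrArg Fin.val h
      simp at this
    refine ⟨y, hy0, fun j => ?_, fun i hi => ?_, ?_⟩
    · have h1 : ((j : Fin (n + 2)) : ℕ) < n + 2 := (j : Fin (n + 2)).isLt
      simp only [hy, h1, dif_pos]
      congr 1
      unfold tau
      rw [dif_neg j.2]
    · have h1 := hc ⟨⟨i + 1, by omega⟩, hne i (by omega)⟩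
      have h2 := ex2_crit n e (f b) y i (by omega)
      rw [h2, if_pos hi, if_neg (by omega)] at h1
      linear_combination h1
    · rw [hev, ex2_map]
      exact ex1_value n e (f b) y hy0 hc
  obtain ⟨y, h0, hX, hrec, hv⟩ := key φ rfl hcrit
  obtain ⟨y', h0', hX', hrec', hv'⟩ := key φ' hφ.symm hcrit'
  have h1 : y 1 = y' 1 := by
    apply mul_left_cancel₀ e2
    rw [← hv, ← hv', hval]
  have h2 := ex1_core n e y y' h0 h0' h1 hrec hrec'
  rw [← hX, ← hX']
  have h3 : ((l : Fin (n + 2)) : ℕ) < n + 2 := (l : Fin (n + 2)).isLt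
  rcases Nat.lt_or_ge ((l : Fin (n + 2)) : ℕ) (n + 1) with h | h
  · exact (h2 _ (by omega)).1
  · have h4 : ((l : Fin (n + 2)) : ℕ) = n + 1 := by omega
    rw [h4]
    exact (h2 n le_rfl).2

theorem EX1_ok : S_EX1 := by
  intro K _ _ n d b hd _ l
  obtain ⟨e, rfl⟩ : ∃ e, d = e + 3 := ⟨d - 3, by omega⟩
  classical
  rw [Ideal.radical_eq_sInf, Ideal.mem_sInf]
  rintro Q ⟨hQ, hQp⟩
  let A := MvPolynomial ({j : Fin (n + 2) // j ≠ 0} ⊕ {j : Fin (n + 2) // j ≠ 0}) K ⧸ Q
  let L := FractionRing A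
  have hdom : IsDomain A := Ideal.Quotient.isDomain Q
  let fA : K →+* L := (algebraMap A L).comp ((Ideal.Quotient.mk Q).comp C)
  have : CharZero L := charZero_of_injective_ringHom fA.injective
  let φ : MvPolynomial {j : Fin (n + 2) // j ≠ 0} K →+* L :=
    (algebraMap A L).comp ((Ideal.Quotient.mk Q).comp
      (rename Sum.inl : MvPolynomial {j : Fin (n + 2) // j ≠ 0} K →ₐ[K] _).toRingHom)
  let φ' : MvPolynomial {j : Fin (n + 2) // j ≠ 0} K →+* L :=
    (algebraMap A L).comp ((Ideal.Quotient.mk Q).comp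
      (rename Sum.inr : MvPolynomial {j : Fin (n + 2) // j ≠ 0} K →ₐ[K] _).toRingHom)
  have hz : ∀ P, P ∈ Q → algebraMap A L (Ideal.Quotient.mk Q P) = 0 := by
    intro P hP
    rw [Ideal.Quotient.eq_zero_iff_mem.2 hP, map_zero]
  have h := ex1_main (L := L) n e b φ φ' (by
      ext a
      change algebraMap A L (Ideal.Quotient.mk Q (rename Sum.inl (C a))) =
        algebraMap A L (Ideal.Quotient.mk Q (rename Sum.inr (C a)))
      rw [rename_C, rename_C])
    (fun j => hz _ (hQ (Ideal.subset_span (Set.mem_insert_of_mem _ (Or.inl ⟨j, rfl⟩)))))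
    (fun j => hz _ (hQ (Ideal.subset_span (Set.mem_insert_of_mem _ (Or.inr ⟨j, rfl⟩)))))
    (by
      have h1 := hz _ (hQ (Ideal.subset_span (Set.mem_insert _ _)))
      rw [map_sub, map_sub] at h1
      exact sub_eq_zero.1 h1) l
  have h1 : algebraMap A L (Ideal.Quotient.mk Q (rename Sum.inl (X l) - rename Sum.inr (X l))) =
      0 := by
    rw [map_sub, map_sub]
    exact sub_eq_zero.2 h
  have h2 := (FaithfulSMul.algebraMap_injective A L) (h1.trans (map_zero _).symm)
  exact Ideal.Quotient.eq_zero_iff_mem.1 h2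

end Pool.Agent.U41.OD
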