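import Pool.Agent.U41.OD.Asm1
import Pool.Agent.U41.OD.Asm4
import Pool.Agent.U41.OD.TW
import Pool.Agent.U492.OD.EA
import Pool.Agent.U981.OD.EB
import Pool.Agent.U913.OD.NW
import Pool.Agent.U15.OD.RC
import Pool.Agent.U165.OD.P
import Pool.Agent.U364.OD.L
import Pool.Agent.U454.OD.LM
import Pool.Agent.U884.OD.FR
import Pool.Agent.U55.OD.UN
import Pool.Agent.U312.OD.TR
import Pool.Agent.U261.OD.SQ
import Pool.Agent.U139.OD.PEN
import Pool.Agent.U653.OD.FI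
import Pool.Agent.U594.OD.SM
import Pool.Agent.U83.OD.PS
import Pool.Agent.U941.OD.CL
import Pool.Agent.U358.OD.B
import Pool.Agent.U898.OD.A
import Pool.Agent.U535.OD.EX3
import Pool.Agent.U884.OD.EX2
import Pool.Agent.U41.OD.EX1

/-! Project OD: end theorems. -/

set_option autoImplicit false
set_option linter.unusedSectionVars false
set_option linter.unusedVariables false

open MvPolynomial NumberField

namespace Pool.Agent.U41.OD

open Pool.Agent.H918R2.Quad Pool.Agent.TH214.RM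

theorem gm : S_GM := GM_ok (LM_ok (L_ok (A_ok EA_ok) (B_ok EB_ok RC_ok) P_ok))

theorem pen : S_PEN := PEN_ok FR_ok UN_ok NW_ok TR_ok SQ_ok

theorem chain_generic {K : Type} [Field K] [CharZero K] (n d : ℕ) (hd : 3 ≤ d) (b : K)
    (hb : b ≠ 0) : Generic (chainF n d b) :=
  ⟨EX1_ok n d b hd hb, EX2_ok n d b hd hb, EX3_ok n d b hd hb⟩

theorem chain_family {K : Type} [Field K] [NumberField K] (n d : ℕ) (hd : 3 ≤ d) (b : 𝓞 K)
    (hb : b ≠ 0) (hb2 : ∀ 𝔭 : Ideal (𝓞 K), 𝔭.IsPrime → 𝔭 ≠ ⊥ → b ∉ 𝔭 ^ 2 ∧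
      ∀ p : ℕ, p.Prime → p ∣ d - 1 → (p : 𝓞 K) ∈ 𝔭 → ∀ c : 𝓞 K, b + c ^ p ∉ 𝔭 ^ 2) :
    ∃ N : 𝓞 K, N ≠ 0 ∧ ∃ Z : Set (𝓞 K), Z.Finite ∧ ∀ c, c ∉ Z → N ∣ c →
      Smooth (map (algebraMap (𝓞 K) K) (member d (chainF n d b) c)) ∧
      LocNode (𝓞 K) (map (algebraMap (𝓞 K) K) (member d (chainF n d b) c)) := by
  have hgen : Generic (map (algebraMap (𝓞 K) K) (chainF n d b)) := by
    rw [map_chainF]
    refine chain_generic n d hd _ ?_
    intro h
    exact hb ((IsFractionRing.injective (𝓞 K) K) (by rw [h, map_zero]))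
  obtain ⟨N, hN, Z, hZ, h⟩ := pencil_open pen FI_ok CL_ok SM_ok PS_ok (by omega)
    (chainF n d b) (chainF_hom n d hd b) hgen
  obtain ⟨N', hN', h'⟩ := h 0 fun 𝔭 hp h0 _ => by
    have h1 : member d (chainF n d b) 0 = chainF n d b := by simp [member]
    rw [h1]
    exact locAt_of_crit 𝔭 _ (crit_chainF n d hd b hb hb2 𝔭 hp h0)
  refine ⟨N', hN', Z, hZ, fun c hc hdvd => h' c hc ?_⟩
  rwa [sub_zero]

end Pool.Agent.U41.OD
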