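import Mathlib

/-!
Project OD (helper41): regular models of hypersurfaces with ordinary double points in the fibres.
Statements of the packages which need only Mathlib.
-/

set_option autoImplicit false

namespace Pool.Agent.U41.OD

open MvPolynomial

/-- The polynomial `g` over the discrete valuation ring `R` (uniformizer `π`) has a nondegenerate
quadratic part modulo `π`, its linear part is divisible by `π ^ k`, and its constant term is
`π ^ k` times a unit. -/
structure NodeR {R σ : Type} [CommRing R] (π : R) (k : ℕ) (g : MvPolynomial σ R) : Prop where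
  two : IsUnit (2 : R)
  le : 2 ≤ k
  const : ∃ u : R, IsUnit u ∧ constantCoeff g = π ^ k * u
  lin : ∀ l, ∃ b : R, coeff (Finsupp.single l 1) g = π ^ k * b
  quad : ∀ l, X l ∈ Ideal.span (Set.range fun j => pderiv j (homogeneousComponent 2 g))

/-- Package EA. -/
def S_EA : Prop := ∀ {R σ : Type} [CommRing R] [IsDomain R] [Finite σ] (π : R) (k : ℕ)
  (g : MvPolynomial σ R), NodeR π k g → ∃ (E T : MvPolynomial σ R) (u : R), IsUnit u ∧
    aeval (fun l => C (π ^ (k / 2)) * X l : σ → MvPolynomial σ R) g = C (π ^ (2 * (k / 2))) * E ∧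
    E = homogeneousComponent 2 g + C (π ^ (k - 2 * (k / 2)) * u) + C π * T ∧
    T ∈ Ideal.span (Set.range (X : σ → MvPolynomial σ R))

/-- Package EB. -/
def S_EB : Prop := ∀ {R B σ : Type} [CommRing R] [CommRing B] [Algebra R B] [Finite σ] (π : R)
  (k i : ℕ) (g : MvPolynomial σ R) (t w : B), NodeR π k g → 2 * i + 2 ≤ k →
  t * w = algebraMap R B π → ∃ E T₁ T₂ : MvPolynomial σ B,
    aeval (fun l => C (t ^ (i + 1) * w ^ i) * X l : σ → MvPolynomial σ B) g =
      C ((t ^ (i + 1) * w ^ i) ^ 2) * E ∧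
    E = map (algebraMap R B) (homogeneousComponent 2 g) + C w * T₁ +
      C (t ^ (i + 1) * w ^ i) * T₂

/-- Package RC: the ring `R[t, w] / (t w - π)` is regular, a domain, and `t`, `w` are not zero in
it. -/
def S_RC : Prop := ∀ {R : Type} [CommRing R] [IsDomain R] [IsDiscreteValuationRing R] (π : R),
  Irreducible π → ∃ (B : Type) (_ : CommRing B) (_ : Algebra R B) (t w : B),
    IsDomain B ∧ IsRegularRing B ∧ t * w = algebraMap R B π ∧
    Function.Injective (algebraMap R B) ∧ t ≠ 0 ∧ w ≠ 0 ∧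
    (∀ z : B, z ∈ Algebra.adjoin R ({t, w} : Set B)) ∧
    ∀ (A : Type) [CommRing A] [Algebra R A] (t' w' : A), t' * w' = algebraMap R A π →
      ∃ φ : B →ₐ[R] A, φ t = t' ∧ φ w = w'

/-- The Hessian matrix of `g`. -/
noncomputable def hess {O σ : Type} [CommRing O] (g : MvPolynomial σ O) :
    Matrix σ σ (MvPolynomial σ O) :=
  Matrix.of fun i j => pderiv i (pderiv j g)

/-- Package NW: Newton's method. -/
def S_NW : Prop := ∀ {O σ : Type} [CommRing O] [Fintype σ] [DecidableEq σ]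
  (g : MvPolynomial σ O) (𝔭 : Ideal O) (a₀ : σ → O), 𝔭.IsMaximal →
  (∀ j, eval a₀ (pderiv j g) ∈ 𝔭) → eval a₀ (hess g).det ∉ 𝔭 →
  ∀ r : ℕ, 1 ≤ r → ∃ a : σ → O, (∀ l, a l - a₀ l ∈ 𝔭) ∧ ∀ j, eval a (pderiv j g) ∈ 𝔭 ^ r

/-- Package SQ: regularity at a critical point whose value is not in `𝔭 ^ 2`. -/
def S_SQ : Prop := ∀ {O σ : Type} [CommRing O] [IsDedekindDomain O] [Fintype σ] [DecidableEq σ]
  (g : MvPolynomial σ O) (𝔭 : Ideal O), 𝔭.IsPrime → 𝔭 ≠ ⊥ →
  ∀ Q : Ideal (MvPolynomial σ O), Q.IsPrime → (∀ r : O, C r ∈ Q ↔ r ∈ 𝔭) →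
  ∀ a : σ → O, (∀ l, X l - C (a l) ∈ Q) → (∀ j, eval a (pderiv j g) ∈ 𝔭) →
  eval a g ∉ 𝔭 ^ 2 → ∀ h, h ∉ Q → h * g ∉ Q ^ 2

end Pool.Agent.U41.OD
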