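import Pool.Agent.TH214.RM.Smooth
import Pool.Agent.U41.OD.Stm0

/-!
Project OD (helper41): regular models of hypersurfaces with ordinary double points in the fibres.
Statements of the packages.
-/

set_option autoImplicit false

open scoped Pointwise

namespace Pool.Agent.U41.OD

open Pool.Agent.H918R2.Quad Pool.Agent.H945R2.E Pool.Agent.W418 Pool.Agent.TH214.RM MvPolynomial

/-- Package A: the local rings of the last chart. -/
def S_A : Prop := ∀ {R F σ : Type} [CommRing R] [IsDomain R] [IsDiscreteValuationRing R] [Field F]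
  [Algebra R F] [Fintype σ] [DecidableEq σ] (π : R) (k : ℕ) (g : MvPolynomial σ R) (y z : σ → F)
  (𝒪 : Subring F), Irreducible π → NodeR π k g → IsLoc 𝒪 → (∀ r : R, algebraMap R F r ∈ 𝒪) →
  (∀ r : R, U 𝒪 (algebraMap R F r) → IsUnit r) → aeval y g = 0 →
  (∃ j₀, AlgebraicIndependent R (fun j : {j : σ // j ≠ j₀} => y j)) →
  Function.Injective (algebraMap R F) →
  (∀ l, y l = algebraMap R F π ^ (k / 2) * z l) → (∀ l, z l ∈ 𝒪) →
  (∀ x ∈ 𝒪, ∃ a ∈ Algebra.adjoin R (Set.range z), ∃ b ∈ Algebra.adjoin R (Set.range z),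
    U 𝒪 b ∧ x = a / b) → IsRegularLocalRing 𝒪

/-- Package B: the local rings of the intermediate charts. -/
def S_B : Prop := ∀ {R F σ : Type} [CommRing R] [IsDomain R] [IsDiscreteValuationRing R] [Field F]
  [Algebra R F] [Fintype σ] [DecidableEq σ] (π : R) (k i : ℕ) (g : MvPolynomial σ R)
  (y v : σ → F) (t w : F) (m : σ) (𝒪 : Subring F), Irreducible π → NodeR π k g → 2 * i + 2 ≤ k →
  IsLoc 𝒪 → (∀ r : R, algebraMap R F r ∈ 𝒪) → (∀ r : R, U 𝒪 (algebraMap R F r) → IsUnit r) →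
  aeval y g = 0 → (∃ j₀, AlgebraicIndependent R (fun j : {j : σ // j ≠ j₀} => y j)) →
  Function.Injective (algebraMap R F) →
  t * w = algebraMap R F π → y m = algebraMap R F π ^ i * t → (∀ l, y l = y m * v l) → v m = 1 →
  t ∈ 𝒪 → w ∈ 𝒪 → (∀ l, v l ∈ 𝒪) → ¬ U 𝒪 w → ¬ U 𝒪 (y m) →
  (∀ x ∈ 𝒪, ∃ a ∈ Algebra.adjoin R (insert t (insert w (Set.range v))),
    ∃ b ∈ Algebra.adjoin R (insert t (insert w (Set.range v))), U 𝒪 b ∧ x = a / b) →
  IsRegularLocalRing 𝒪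

/-- Package P: the local ring of a projective hypersurface at a point of the chart `s`. -/
def S_P : Prop := ∀ {R F ι : Type} [CommRing R] [IsDomain R] [IsRegularRing R] [Field F]
  [Algebra R F] [Fintype ι] [DecidableEq ι] (𝒪 : Subring F) (G : MvPolynomial ι R) (d : ℕ) (s : ι)
  (x : ι → F), IsLoc 𝒪 → (∀ r : R, algebraMap R F r ∈ 𝒪) →
  (∀ r : R, U 𝒪 (algebraMap R F r) → IsUnit r) → G ≠ 0 → G.IsHomogeneous d →
  (∀ Q : Ideal (MvPolynomial {j : ι // j ≠ s} R), Q.IsPrime → deh s G ∈ Q →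
    (∀ r : R, C r ∈ Q ↔ ¬ IsUnit r) → (∃ j, pderiv j (deh s G) ∉ Q) ∨
      ∀ h, h ∉ Q → h * deh s G ∉ Q ^ 2) →
  aeval x G = 0 → x s ≠ 0 → (∀ j, x j / x s ∈ 𝒪) →
  (∃ j₀ : {i : ι // i ≠ s},
    AlgebraicIndependent R (fun i : {i : {i : ι // i ≠ s} // i ≠ j₀} => x i / x s)) →
  (∀ y ∈ 𝒪, ∃ a ∈ Algebra.adjoin R (Set.range fun j => x j / x s),
    ∃ b ∈ Algebra.adjoin R (Set.range fun j => x j / x s), U 𝒪 b ∧ y = a / b) →
  IsRegularLocalRing 𝒪

/-- The homogeneous generators `π ^ i x_0, x_1, x_2, …` of the `i`-th centre. -/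
def cen {R F ι : Type} [CommRing R] [Field F] [Algebra R F] (π : R) (x : ι → F) (o : ι) (i : ℕ) :
    Set F :=
  insert (algebraMap R F π ^ i * x o) (x '' {j | j ≠ o})

/-- The homogeneous coordinates of degree `D` of the blowing up of the product of the first `J`
centres. -/
def GD {R F ι : Type} [CommRing R] [Field F] [Algebra R F] (π : R) (x : ι → F) (o : ι) (J D : ℕ) :
    Set F :=
  Set.range x ^ (D - J) * ∏ i ∈ Finset.range J, cen π x o (i + 1)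

/-- Package L: the local rings of the blowing up. -/
def S_L : Prop := ∀ {R F : Type} [CommRing R] [IsDomain R] [IsDiscreteValuationRing R] [Field F]
  [Algebra R F] {n : ℕ} (π : R) (k : ℕ) (G : MvPolynomial (Fin (n + 2)) R) (d : ℕ)
  (x : Fin (n + 2) → F) (𝒪 : Subring F) (f : F) (D : ℕ), Irreducible π → G.IsHomogeneous d →
  NodeR π k (deh 0 G) →
  (∀ s, s ≠ 0 → ∀ Q : Ideal (MvPolynomial {j : Fin (n + 2) // j ≠ s} R), Q.IsPrime →
    deh s G ∈ Q → (∀ r : R, C r ∈ Q ↔ ¬ IsUnit r) → (∃ j, pderiv j (deh s G) ∉ Q) ∨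
      ∀ h, h ∉ Q → h * deh s G ∉ Q ^ 2) →
  aeval x G = 0 → (∀ s, x s ≠ 0 → ∃ j₀ : {i : Fin (n + 2) // i ≠ s},
    AlgebraicIndependent R (fun i : {i : {i : Fin (n + 2) // i ≠ s} // i ≠ j₀} => x i / x s)) →
  Function.Injective (algebraMap R F) → x 0 ≠ 0 →
  IsLoc 𝒪 → (∀ r : R, algebraMap R F r ∈ 𝒪) → (∀ r : R, U 𝒪 (algebraMap R F r) → IsUnit r) →
  k / 2 + 1 ≤ D → f ≠ 0 → f ∈ Submodule.span R (GD π x 0 (k / 2) D) →
  (∀ h ∈ GD π x 0 (k / 2) D, h / f ∈ 𝒪) →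
  IsLocOf 𝒪 (chart R (Submodule.span R (GD π x 0 (k / 2) D)) f) → IsRegularLocalRing 𝒪

/-- Over the prime `𝔭` the hypersurface `H = 0` is regular outside the point `(1 : 0 : ⋯ : 0)`,
where it has an ordinary double point. -/
structure Node {O : Type} [CommRing O] {n : ℕ} (𝔭 : Ideal O) (H : MvPolynomial (Fin (n + 2)) O) :
    Prop where
  two : (2 : O) ∉ 𝔭
  vals : ∃ k, 2 ≤ k ∧ constantCoeff (deh 0 H) ∈ 𝔭 ^ k ∧ constantCoeff (deh 0 H) ∉ 𝔭 ^ (k + 1) ∧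
    ∀ l, coeff (Finsupp.single l 1) (deh 0 H) ∈ 𝔭 ^ k
  quad : ∀ l, ∃ δ : O, δ ∉ 𝔭 ∧ C δ * X l ∈
    Ideal.span (Set.range fun j => pderiv j (homogeneousComponent 2 (deh 0 H)))
  off : ∀ s, s ≠ 0 → ∀ Q : Ideal (MvPolynomial {j : Fin (n + 2) // j ≠ s} O), Q.IsPrime →
    (∀ r : O, C r ∈ Q ↔ r ∈ 𝔭) → deh s H ∈ Q → (∃ j, pderiv j (deh s H) ∉ Q) ∨
      ∀ h, h ∉ Q → h * deh s H ∉ Q ^ 2

/-- Package LM: the local module at a prime with a double point. -/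
def S_LM : Prop := ∀ {O K F : Type} [CommRing O] [IsDedekindDomain O] [Field K] [Algebra O K]
  [IsFractionRing O K] [Field F] [Algebra K F] [Algebra O F] [IsScalarTower O K F]
  (𝔭 : Ideal O) [𝔭.IsPrime], 𝔭 ≠ ⊥ → ∀ {n : ℕ} (G : MvPolynomial (Fin (n + 2)) O), G ≠ 0 →
  ∀ d : ℕ, G.IsHomogeneous d → Node 𝔭 G →
  ∀ x : Fin (n + 2) → F, x 0 = 1 → IntermediateField.adjoin K (Set.range x) = ⊤ →
  ∀ b : Fin n → F, IsTranscendenceBasis K b →
  ∀ (x' : Fin (n + 2) → F) (u u' : Fin (n + 2) → Fin (n + 2) → K),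
  (∀ i, x i = ∑ j, algebraMap K F (u i j) * x' j) →
  (∀ i, x' i = ∑ j, algebraMap K F (u' i j) * x j) → aeval x' G = 0 → x' 0 ≠ 0 → LocMod 𝔭 x

/-- Over each nonzero prime the hypersurface has, in suitable coordinates, an equation which is
regular, or regular outside one rational point where it has an ordinary double point. -/
def LocNode (O : Type) {K : Type} [CommRing O] [Field K] [Algebra O K] {n : ℕ}
    (G : MvPolynomial (Fin (n + 2)) K) : Prop :=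
  ∀ 𝔭 : Ideal O, 𝔭.IsPrime → 𝔭 ≠ ⊥ →
    ∃ (H : MvPolynomial (Fin (n + 2)) O) (l : K) (T T' : Matrix (Fin (n + 2)) (Fin (n + 2)) K),
      l ≠ 0 ∧ T * T' = 1 ∧
      map (algebraMap O K) H = C l * aeval (fun i => ∑ j, C (T i j) * X j) G ∧
      (Crit 𝔭 H ∨ Node 𝔭 H)

/-- Package GM: the global module. -/
def S_GM : Prop := ∀ {O K F : Type} [CommRing O] [IsDedekindDomain O] [Field K] [Algebra O K]
  [IsFractionRing O K] [Field F] [Algebra K F] [Algebra O F] [IsScalarTower O K F] {n : ℕ}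
  (G : MvPolynomial (Fin (n + 2)) K), Irreducible G → ∀ d : ℕ, 2 ≤ d → G.IsHomogeneous d →
  Smooth G → LocNode O G → ∀ x : Fin (n + 2) → F, x 0 = 1 → aeval x G = 0 →
  IntermediateField.adjoin K (Set.range x) = ⊤ →
  ∀ b : Fin n → F, IsTranscendenceBasis K b → GoodModule O x

/-- Over `O[1 / N]`: the critical points of `g = G(1, y)` are nondegenerate, with different critical
values, and the section `x_0 = 0` of `G = 0` is smooth. -/
structure Cert {O : Type} [CommRing O] {n : ℕ} (N : O) (G : MvPolynomial (Fin (n + 2)) O) :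
    Prop where
  sep : ∀ l : {j : Fin (n + 2) // j ≠ 0}, ∃ M : ℕ,
    C N * (rename Sum.inl (X l : MvPolynomial {j : Fin (n + 2) // j ≠ 0} O) -
        rename Sum.inr (X l : MvPolynomial {j : Fin (n + 2) // j ≠ 0} O)) ^ M ∈
      Ideal.span (insert (rename Sum.inl (deh 0 G) - rename Sum.inr (deh 0 G))
        ((Set.range fun j => rename Sum.inl (pderiv j (deh 0 G))) ∪
          (Set.range fun j => rename Sum.inr (pderiv j (deh 0 G)))) :
        Set (MvPolynomial ({j : Fin (n + 2) // j ≠ 0} ⊕ {j : Fin (n + 2) // j ≠ 0}) O))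
  nondeg : C N ∈ Ideal.span (insert (hess (deh 0 G)).det
    (Set.range fun j => pderiv j (deh 0 G)))
  sect : ∀ i : Fin (n + 2), i ≠ 0 → ∃ M : ℕ, C N * X i ^ M ∈
    Ideal.span (insert (X 0) (insert G (Set.range fun j : {j : Fin (n + 2) // j ≠ 0} =>
      pderiv (j : Fin (n + 2)) G)))

/-- The translation of coordinates `x_l ↦ x_l + a_l x_0`. -/
noncomputable def trans {O : Type} [CommRing O] {n : ℕ} (a : {j : Fin (n + 2) // j ≠ 0} → O)
    (H : MvPolynomial (Fin (n + 2)) O) : MvPolynomial (Fin (n + 2)) O :=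
  aeval (fun i => if h : i ≠ 0 then X i + C (a ⟨i, h⟩) * X 0 else X 0) H

/-- Package FR: a critical point with a value in `O` is rational (Frobenius). -/
def S_FR : Prop := ∀ {O : Type} [CommRing O] [IsDomain O] {n : ℕ}
  (G : MvPolynomial (Fin (n + 2)) O) (N c : O) (𝔭 : Ideal O), 𝔭.IsMaximal → Finite (O ⧸ 𝔭) →
  N ∉ 𝔭 → Cert N G → ∀ Q : Ideal (MvPolynomial {j : Fin (n + 2) // j ≠ 0} O), Q.IsPrime →
  (∀ r : O, C r ∈ Q ↔ r ∈ 𝔭) → (∀ j, pderiv j (deh 0 G) ∈ Q) → deh 0 G + C c ∈ Q →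
  ∃ a : {j : Fin (n + 2) // j ≠ 0} → O, ∀ l, X l - C (a l) ∈ Q

/-- Package UN: two critical points with the same value coincide. -/
def S_UN : Prop := ∀ {O : Type} [CommRing O] [IsDomain O] {n : ℕ}
  (G : MvPolynomial (Fin (n + 2)) O) (N c : O) (𝔭 : Ideal O), 𝔭.IsPrime →
  N ∉ 𝔭 → Cert N G → ∀ Q : Ideal (MvPolynomial {j : Fin (n + 2) // j ≠ 0} O), Q.IsPrime →
  (∀ r : O, C r ∈ Q ↔ r ∈ 𝔭) → (∀ j, pderiv j (deh 0 G) ∈ Q) → deh 0 G + C c ∈ Q →
  ∀ a : {j : Fin (n + 2) // j ≠ 0} → O, (∀ j, eval a (pderiv j (deh 0 G)) ∈ 𝔭) →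
  eval a (deh 0 G) + c ∈ 𝔭 → ∀ l, X l - C (a l) ∈ Q

/-- Package TR: the translated equation. -/
def S_TR : Prop := ∀ {O : Type} [CommRing O] {n : ℕ} (a : {j : Fin (n + 2) // j ≠ 0} → O)
  (H : MvPolynomial (Fin (n + 2)) O),
  deh 0 (trans a H) = aeval (fun l => X l + C (a l)) (deh 0 H) ∧
  constantCoeff (deh 0 (trans a H)) = eval a (deh 0 H) ∧
  (∀ l, coeff (Finsupp.single l 1) (deh 0 (trans a H)) = eval a (pderiv l (deh 0 H))) ∧
  ∀ l, pderiv l (homogeneousComponent 2 (deh 0 (trans a H))) =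
    ∑ m, C (eval a (hess (deh 0 H) l m)) * X m

/-- Package PEN: the members of the pencil at a prime not containing `N`. -/
def S_PEN : Prop := ∀ {O : Type} [CommRing O] [IsDedekindDomain O] {n d : ℕ}
  (G : MvPolynomial (Fin (n + 2)) O) (N : O) (𝔭 : Ideal O), 𝔭.IsPrime → 𝔭 ≠ ⊥ →
  Finite (O ⧸ 𝔭) → N ∉ 𝔭 → (2 : O) ∉ 𝔭 → 2 ≤ d → G.IsHomogeneous d → Cert N G → ∀ c : O,
  (∃ e : O, e ≠ 0 ∧ C e ∈ Ideal.span (insert (deh 0 G + C c)
    (Set.range fun j => pderiv j (deh 0 G)))) →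
  Crit 𝔭 (G + C c * X 0 ^ d) ∨ ∃ a, Node 𝔭 (trans a (G + C c * X 0 ^ d))

end Pool.Agent.U41.OD
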