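import Pool.Agent.U41.OD.Stm

/-! Project OD (helper41): statements of the packages FI, CL, SM, ET (generic pencils). -/

set_option autoImplicit false

namespace Pool.Agent.U41.OD

open Pool.Agent.H918R2.Quad Pool.Agent.TH214.RM MvPolynomial

/-- The affine function `g = G(1, y)` has only nondegenerate critical points (over an algebraic
closure), with different critical values, and the section `x_0 = 0` of `G = 0` is smooth. -/
structure Generic {K : Type} [Field K] {n : ℕ} (G : MvPolynomial (Fin (n + 2)) K) : Prop where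
  sep : ∀ l : {j : Fin (n + 2) // j ≠ 0},
    rename Sum.inl (X l : MvPolynomial {j : Fin (n + 2) // j ≠ 0} K) -
        rename Sum.inr (X l : MvPolynomial {j : Fin (n + 2) // j ≠ 0} K) ∈
      (Ideal.span (insert (rename Sum.inl (deh 0 G) - rename Sum.inr (deh 0 G))
        ((Set.range fun j => rename Sum.inl (pderiv j (deh 0 G))) ∪
          (Set.range fun j => rename Sum.inr (pderiv j (deh 0 G)))) :
        Set (MvPolynomial ({j : Fin (n + 2) // j ≠ 0} ⊕ {j : Fin (n + 2) // j ≠ 0}) K))).radical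
  nondeg : (1 : MvPolynomial {j : Fin (n + 2) // j ≠ 0} K) ∈
    Ideal.span (insert (hess (deh 0 G)).det (Set.range fun j => pderiv j (deh 0 G)))
  sect : ∀ i : Fin (n + 2), i ≠ 0 → X i ∈
    (Ideal.span (insert (X 0) (insert G (Set.range fun j : {j : Fin (n + 2) // j ≠ 0} =>
      pderiv (j : Fin (n + 2)) G)))).radical

/-- Package FI: a function with nondegenerate critical points has finitely many critical values. -/
def S_FI : Prop := ∀ {K σ : Type} [Field K] [Fintype σ] [DecidableEq σ] (g : MvPolynomial σ K),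
  (1 : MvPolynomial σ K) ∈ Ideal.span (insert (hess g).det (Set.range fun j => pderiv j g)) →
  ∃ m : Polynomial K, m ≠ 0 ∧
    Polynomial.aeval g m ∈ Ideal.span (Set.range fun j => pderiv j g)

/-- Package CL: clearing denominators. -/
def S_CL : Prop := ∀ {O K : Type} [CommRing O] [IsDomain O] [Field K] [Algebra O K]
  [IsFractionRing O K] {n : ℕ} (G : MvPolynomial (Fin (n + 2)) O),
  Generic (map (algebraMap O K) G) → ∃ N : O, N ≠ 0 ∧ Cert N G

/-- Package SM: smoothness of the members of the pencil. -/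
def S_SM : Prop := ∀ {K : Type} [Field K] [CharZero K] {n d : ℕ}
  (G : MvPolynomial (Fin (n + 2)) K) (c : K), 1 ≤ d → G.IsHomogeneous d →
  (∀ i : Fin (n + 2), i ≠ 0 → X i ∈
    (Ideal.span (insert (X 0) (insert G (Set.range fun j : {j : Fin (n + 2) // j ≠ 0} =>
      pderiv (j : Fin (n + 2)) G)))).radical) →
  (1 : MvPolynomial {j : Fin (n + 2) // j ≠ 0} K) ∈
    Ideal.span (insert (deh 0 G + C c) (Set.range fun j => pderiv j (deh 0 G))) →
  Smooth (G + C c * X 0 ^ d)

/-- Package PS: the local conditions are open. -/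
def S_PS : Prop := ∀ {O : Type} [CommRing O] [IsDedekindDomain O] {n : ℕ}
  (H : MvPolynomial (Fin (n + 2)) O) (𝔭 : Ideal O), 𝔭.IsPrime → 𝔭 ≠ ⊥ →
  (Crit 𝔭 H ∨ Node 𝔭 H) → ∃ r : ℕ, ∀ H' : MvPolynomial (Fin (n + 2)) O,
    (∀ m, coeff m (H' - H) ∈ 𝔭 ^ r) → (Crit 𝔭 H' ∨ Node 𝔭 H')

end Pool.Agent.U41.OD
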