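import Pool.Agent.U41.OD.Stm2

/-! Project OD (helper41): the explicit family. Statements of the packages EX1, EX2, EX3. -/

set_option autoImplicit false

namespace Pool.Agent.U41.OD

open Pool.Agent.H918R2.Quad Pool.Agent.TH214.RM MvPolynomial

/-- The form `∑_{i ≤ n} x_i ^ (d - 1) x_{i + 1} + b x_{n + 1} ^ d` in the variables
`x_0, …, x_{n + 1}`. -/
noncomputable def chainF {R : Type} [CommRing R] (n d : ℕ) (b : R) :
    MvPolynomial (Fin (n + 2)) R :=
  ∑ i : Fin (n + 1), X i.castSucc ^ (d - 1) * X i.succ + C b * X (Fin.last (n + 1)) ^ d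

/-- Package EX1: the critical values of `chainF (1, y)` are different. -/
def S_EX1 : Prop := ∀ {K : Type} [Field K] [CharZero K] (n d : ℕ) (b : K), 3 ≤ d → b ≠ 0 →
  ∀ l : {j : Fin (n + 2) // j ≠ 0},
    rename Sum.inl (X l : MvPolynomial {j : Fin (n + 2) // j ≠ 0} K) -
        rename Sum.inr (X l : MvPolynomial {j : Fin (n + 2) // j ≠ 0} K) ∈
      (Ideal.span (insert (rename Sum.inl (deh 0 (chainF n d b)) -
          rename Sum.inr (deh 0 (chainF n d b)))
        ((Set.range fun j => rename Sum.inl (pderiv j (deh 0 (chainF n d b)))) ∪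
          (Set.range fun j => rename Sum.inr (pderiv j (deh 0 (chainF n d b))))) :
        Set (MvPolynomial ({j : Fin (n + 2) // j ≠ 0} ⊕ {j : Fin (n + 2) // j ≠ 0}) K))).radical

/-- Package EX2: the critical points of `chainF (1, y)` are nondegenerate. -/
def S_EX2 : Prop := ∀ {K : Type} [Field K] [CharZero K] (n d : ℕ) (b : K), 3 ≤ d → b ≠ 0 →
  (1 : MvPolynomial {j : Fin (n + 2) // j ≠ 0} K) ∈
    Ideal.span (insert (hess (deh 0 (chainF n d b))).det
      (Set.range fun j => pderiv j (deh 0 (chainF n d b))))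

/-- Package EX3: the section `x_0 = 0` is smooth. -/
def S_EX3 : Prop := ∀ {K : Type} [Field K] [CharZero K] (n d : ℕ) (b : K), 3 ≤ d → b ≠ 0 →
  ∀ i : Fin (n + 2), i ≠ 0 → X i ∈
    (Ideal.span (insert (X 0) (insert (chainF n d b) (Set.range fun j : {j : Fin (n + 2) // j ≠ 0} =>
      pderiv (j : Fin (n + 2)) (chainF n d b))))).radical

end Pool.Agent.U41.OD
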